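import Pool.Agent.P.MP_77a832_co.Ps.Piv

/-! The blocks of the substitution and the finite checks. -/

namespace Pool.Agent.P.MP_77a832_co.Ps

open Finset

/-- The mask. -/
def R (x : ℤ) : ℤ :=
  if x = 0 ∨ x = 5 then 3 else if x = 1 ∨ x = 4 then 7 else if x = 2 ∨ x = 3 then 10 else 0

/-- Subdivision with the mask. -/
def cv (d : ℤ → ℤ) (x : ℤ) : ℤ :=
  R (x % 2) * d (x / 2) + R (x % 2 + 2) * d (x / 2 - 1) + R (x % 2 + 4) * d (x / 2 - 2)

/-- The weight of a cone. -/
def T (e x : ℤ) : ℤ := R x + e * R (x - 2)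

/-- The cone at a pivot, with slack `q` times the sum of the weights minus `s`. -/
def Cn (u : ℤ → ℤ) (e j q s : ℤ) : Prop := (∀ x, x < 2 * (j + e) → 0 ≤ u x) ∧
  (∀ y, 2 * j + 5 < y → u y ≤ 0) ∧ ∀ x y, 2 * (j + e) ≤ x → x < y → y ≤ 2 * j + 5 →
    s - q * (T e (x - 2 * j) + T e (y - 2 * j)) ≤ u x * T e (y - 2 * j) - u y * T e (x - 2 * j)

/-- The condition on one end of a factor. -/
def Sd (a : ℤ → ℤ) (n s : ℤ) : Prop := ∀ e j, (e = 1 ∨ e = 0 ∧ lo n j + up n j = 1) →
  Cn (fun x => 2 * a x + cv (bud n e j) x) e j 1 s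

/-- A list as a function on the integers. -/
def ev (h : List ℕ) (x : ℤ) : ℤ := if 0 ≤ x then h.getD x.toNat 0 else 0

/-- One more letter. -/
def inc : List ℕ → ℕ → List ℕ
  | [], 0 => [1]
  | [], a + 1 => 0 :: inc [] a
  | b :: h, 0 => (b + 1) :: h
  | b :: h, a + 1 => b :: inc h a

/-- A test on the histograms of all initial factors. -/
def allf (c : List ℕ → Bool) : List ℕ → List ℕ → Bool
  | h, [] => c h
  | h, a :: l => c h && allf c (inc h a) l

/-- A list as a word. -/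
def lf (l : List ℕ) (t : ℕ) : ℤ := (l.getD t 0 : ℕ)

lemma getD_inc (h : List ℕ) (a x : ℕ) :
    (inc h a).getD x 0 = h.getD x 0 + if a = x then 1 else 0 := by
  induction a generalizing h x with
  | zero => cases h <;> cases x <;> simp [inc]
  | succ a ih => cases h <;> cases x <;> simp only [inc, List.getD_cons_zero, List.getD_cons_succ, ih, List.getD_nil] <;> simp

lemma allf_spec {c : List ℕ → Bool} {l : List ℕ} : ∀ {h : List ℕ}, allf c h l = true →
    ∀ v ≤ l.length, ∃ h', c h' = true ∧ ∀ x, ev h' x = ev h x + H (lf l) 0 v x := by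
  induction l with
  | nil => exact fun h v hv => ⟨_, h, fun x => by rw [Nat.le_zero.1 hv, H_self, add_zero]⟩
  | cons a l ih =>
    intro h e v hv
    rw [allf, Bool.and_eq_true] at e
    cases v with
    | zero => exact ⟨_, e.1, fun x => by rw [H_self, add_zero]⟩
    | succ v =>
      obtain ⟨h', e1, e2⟩ := ih e.2 v (by simpa using hv)
      refine ⟨h', e1, fun x => ?_⟩
      have : H (lf (a :: l)) 0 (v + 1) x = H (lf l) 0 v x + dl a x := by
        simp only [H, ← range_eq_Ico, sum_range_succ']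
        rfl
      rw [e2, this, ev, ev, getD_inc, dl]
      split_ifs <;> omega

/-- The monotone block. -/
def bA : List ℕ := [1,2,1,2,3,4,3,2,3,4,5,4,3,2,3,2,1,0,1,2,1,2,3,4,3,2,3,4,5,4,3,2,3,4,5,4,3,4,5,6,
  5,6,5,6,5,4,5,4,3,4,5,4,3,2,3,4,5,4,3,4,3,2,1,2,3,2,1,0,1,2,1,0,1,2,3,2,3,4,3,2]

/-- The turning block. -/
def bB : List ℕ := [5,4,5,4,3,2,3,4,3,2,1,2,3,4,3,4,5,6,5,4,5,6,5,4,5,4,3,2,3,4,3,2,1,2,3,4,3,4,3,2,
  3,2,1,0,1,2,3,2,1,0,1,2,1,0,1,2,1,2,3,4,3,2,3,4,3,2,3,4,5,4,5,6,5,4,3,4,3,2,1,2]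

/-- The block of a letter, given the directions of the steps before and after it. -/
def bk (p n : Bool) : List ℕ :=
  cond n (cond p bA bB) (cond p (bB.map (6 - ·)) (bA.map (6 - ·)))

/-- Three consecutive blocks. -/
def b3 (p q r n : Bool) : List ℕ := (bk p q).map (· + 5) ++ ((bk q r).map (· + cond q 7 3) ++
  (bk r n).map (· + cond q (cond r 9 5) (cond r 5 1)))

/-- A digit. -/
def dg (h x : ℕ) : ℕ := Nat.mod (Nat.div h (Nat.pow 64 x)) 64

/-- The histogram `h`, with maximum `m`, stays unimodal while the letters are added. -/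
def run (l : List ℕ) : ℕ → ℕ → Bool :=
  List.rec (fun _ _ => true) (fun a _ r h m => and (Nat.blt (dg h a) 63) (cond (Nat.ble m (dg h a))
    (r (Nat.add h (Nat.pow 64 a)) (dg h a).succ) (and (or (Nat.blt (dg h a) (dg h a.pred))
      (Nat.blt (dg h a) (dg h a.succ))) (r (Nat.add h (Nat.pow 64 a)) m)))) l

/-- All factors that start in the first `m` places. -/
def runs : ℕ → List ℕ → Bool
  | 0, _ => true
  | _, [] => true
  | m + 1, a :: l => run (a :: l) 0 0 && runs m l

/-- The bounded form of the condition on one end. -/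
def sd (a : ℤ → ℤ) (n s : ℤ) : Bool := [0, 1].all fun e => [-4, -3, -2, -1, 0, 1, 2, 3, 4].all
  fun j => if e = 1 ∨ lo n j + up n j = 1 then
    (([-4, -3, -2, -1, 0, 1, 2, 3, 4, 5, 6, 7, 8, 9, 10, 11].all fun x =>
      if x < 2 * (j + e) then decide (0 ≤ 2 * a x + cv (bud n e j) x) else
        if 2 * j + 5 < x then decide (2 * a x + cv (bud n e j) x ≤ 0) else true) &&
    [0, 1, 2, 3, 4].all fun x => [1, 2, 3, 4, 5].all fun y => if 2 * e ≤ x ∧ x < y then decide
      (s - (T e x + T e y) ≤ (2 * a (2 * j + x) + cv (bud n e j) (2 * j + x)) * T e y -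
        (2 * a (2 * j + y) + cv (bud n e j) (2 * j + y)) * T e x) else true) else true

/-- The test for both ends. -/
def sd2 (p n : Bool) (h : List ℕ) : Bool := decide (h.length ≤ 7) &&
  (sd (fun x => ev h x - ev h (x - 1)) (cond p (-1) 1) 0 &&
    sd (fun x => R x - R (x - 2) - (ev h x - ev h (x - 1))) (cond n 1 (-1)) 1)

end Pool.Agent.P.MP_77a832_co.Ps
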