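import Pool.Agent.P.MP_77a832_co.Ps.Blk

/-! The finite checks. -/

namespace Pool.Agent.P.MP_77a832_co.Ps

lemma chk1 : ∀ p q r n, runs 80 (b3 p q r n) = true := by decide +kernel

lemma chk2 : ∀ p n, allf (sd2 p n) [] (bk p n) = true := by decide +kernel

lemma chk3 : ∀ p n, (bk p n).length = 80 ∧ (∀ a ∈ bk p n, a ≤ 6) ∧
    ∀ x ∈ [0, 1, 2, 3, 4, 5, 6], H (lf (bk p n)) 0 80 x = R x + R (x - 1) := by decide +kernel

lemma chk4 : ∀ p q r n, ∀ t < 80, lf (b3 p q r n) (t + 1) = lf (b3 p q r n) t + 1 ∨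
    lf (b3 p q r n) (t + 1) = lf (b3 p q r n) t - 1 := by decide +kernel

end Pool.Agent.P.MP_77a832_co.Ps
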