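import Pool.Agent.P.MP_77a832_co.Ps.Blk

/-! Cones, and the meaning of the finite checks. -/

namespace Pool.Agent.P.MP_77a832_co.Ps

open Finset

lemma R_out {x : ℤ} (h : x < 0 ∨ 5 < x) : R x = 0 := by
  unfold R
  omega

lemma cv_par (d : ℤ → ℤ) (i : ℤ) : cv d (2 * i) = 3 * d i + 10 * d (i - 1) + 7 * d (i - 2) ∧
    cv d (2 * i + 1) = 7 * d i + 10 * d (i - 1) + 3 * d (i - 2) := by
  unfold cv
  rw [show 2 * i % 2 = 0 by omega, show 2 * i / 2 = i by omega, show (2 * i + 1) % 2 = 1 by omega,
    show (2 * i + 1) / 2 = i by omega]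
  exact ⟨rfl, rfl⟩

lemma par (x : ℤ) : ∃ i, x = 2 * i ∨ x = 2 * i + 1 := ⟨x / 2, by omega⟩

lemma cv_dl (c x : ℤ) : cv (fun i => dl c i - dl c (i - 1)) x = R (x - 2 * c) - R (x - 2 * c - 2) := by
  obtain ⟨i, rfl | rfl⟩ := par x <;> simp only [cv_par, dl, R] <;> omega

lemma cv_shift (d : ℤ → ℤ) (c x : ℤ) : cv d (x - 2 * c) = cv (fun i => d (i - c)) x := by
  obtain ⟨i, rfl | rfl⟩ := par x
  · rw [← mul_sub, (cv_par _ _).1, (cv_par _ _).1, sub_right_comm, sub_right_comm i c]
  · rw [add_sub_right_comm, ← mul_sub, (cv_par _ _).2, (cv_par _ _).2, sub_right_comm,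
      sub_right_comm i c]

lemma cn_cv {d : ℤ → ℤ} {e j : ℤ} (he : e = 1 ∨ e = 0) (h1 : ∀ i < j + e, 0 ≤ d i)
    (h2 : ∀ i, j < i → d i ≤ 0) : Cn (cv d) e j 0 0 := by
  refine ⟨fun x hx => ?_, fun x hx => ?_, fun x y h3 h4 h5 => ?_⟩
  iterate 2
    obtain ⟨i, rfl | rfl⟩ := par x <;> simp only [cv_par] <;> have := h1 i <;> have := h1 (i - 1) <;>
      have := h1 (i - 2) <;> have := h2 i <;> have := h2 (i - 1) <;> have := h2 (i - 2) <;> omega
  have c0 := cv_par d j
  have c1 := cv_par d (j + 1)
  have c2 := cv_par d (j + 2)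
  simp only [mul_add, add_assoc, add_sub_cancel_right, show j + 1 - 2 = j - 1 by ring,
    show j + 2 - 1 = j + 1 by ring, Int.reduceMul, Int.reduceAdd] at c1 c2
  have := h1 (j - 2)
  have := h1 (j - 1)
  have := h1 j
  have := h2 (j + 1)
  have := h2 (j + 2)
  obtain ⟨x, rfl⟩ : ∃ z, x = 2 * j + z := ⟨x - 2 * j, by ring⟩
  obtain ⟨y, rfl⟩ : ∃ z, y = 2 * j + z := ⟨y - 2 * j, by ring⟩
  have : 0 ≤ x := by omega
  have : x < y := by omega
  have : y ≤ 5 := by omega
  have : x ≤ 5 := by omega
  rcases he with rfl | rfl <;> interval_cases x <;> interval_cases y <;>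
    simp only [add_sub_cancel_left, add_zero, sub_self, c0, c1, c2] <;> norm_num [T, R] <;> omega

lemma sd_spec {a : ℤ → ℤ} {n s : ℤ} (hn : n = 1 ∨ n = -1) (hs : s ≤ 1)
    (hz : ∀ x, x < 0 ∨ 7 < x → a x = 0) (h : sd a n s = true) : Sd a n s := by
  simp only [sd, List.all_eq_true] at h
  have z : ∀ e j x, e = 1 ∨ -1 ≤ j ∧ j ≤ 2 → x < -4 ∨ 11 < x → 2 * a x + cv (bud n e j) x = 0 := by
    intro e j x he hx
    rw [hz x (by omega)]
    obtain ⟨i, rfl | rfl⟩ := par x <;> simp only [cv_par, bud, lo, up, dl] <;> omega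
  have key : ∀ e j, -4 ≤ j → j ≤ 4 → (e = 1 ∨ e = 0 ∧ lo n j + up n j = 1) →
      Cn (fun x => 2 * a x + cv (bud n e j) x) e j 1 s := by
    intro e j j1 j2 he
    have := h e (by simp only [List.mem_cons]; omega) j (by simp only [List.mem_cons]; omega)
    rw [if_pos (he.imp_right And.right), Bool.and_eq_true] at this
    simp only [List.all_eq_true] at this
    have z' := fun x => z e j x (by simp only [lo, up] at he; omega)
    refine ⟨fun x hx => ?_, fun x hx => ?_, fun x y h3 h4 h5 => ?_⟩
    · by_cases c : x < -4 ∨ 11 < x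
      · exact (z' x c).ge
      · simpa only [if_pos hx, decide_eq_true_eq] using
          this.1 x (by simp only [List.mem_cons]; omega)
    · by_cases c : x < -4 ∨ 11 < x
      · exact (z' x c).le
      · simpa only [if_pos hx, if_neg (show ¬ x < 2 * (j + e) by omega), decide_eq_true_eq] using
          this.1 x (by simp only [List.mem_cons]; omega)
    · have := this.2 (x - 2 * j) (by simp only [List.mem_cons]; omega) (y - 2 * j)
        (by simp only [List.mem_cons]; omega)
      rw [if_pos (by omega)] at this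
      simpa only [add_sub_cancel, one_mul, decide_eq_true_eq] using this
  intro e j he
  have tp : ∀ x, 2 * (j + e) ≤ x → x ≤ 2 * j + 5 → 1 ≤ T e (x - 2 * j) := fun x x1 x2 => by
    rcases he with rfl | ⟨rfl, -⟩ <;> simp only [T, R] <;> omega
  rcases le_or_gt j 4 with j2 | j2
  · rcases le_or_gt (-4) j with j1 | j1
    · exact key e j j1 j2 he
    obtain rfl : e = 1 := he.resolve_right (by simp only [lo, up]; omega)
    have e : bud n 1 j = bud n 1 (-4) := funext fun i => by simp only [bud, lo, up]; omega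
    have k : ∀ x, x < -2 → 2 * a x + cv (bud n 1 (-4)) x = 0 := fun x hx => by
      rw [hz x (by omega)]
      obtain ⟨i, rfl | rfl⟩ := par x <;> simp only [cv_par, bud, lo, up, dl] <;> omega
    rw [e]
    refine ⟨fun x hx => (k x (by omega)).ge, fun x hx => ?_, fun x y h3 h4 h5 => ?_⟩
    · exact (lt_or_ge x (-2)).elim (fun c => (k x c).le) fun c =>
        (key 1 (-4) (by omega) (by omega) (.inl rfl)).2.1 x (by omega)
    · have := tp x h3 (by omega)
      have := tp y (by omega) h5
      simp only [k x (by omega), k y (by omega)]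
      omega
  · obtain rfl : e = 1 := he.resolve_right (by simp only [lo, up]; omega)
    have e : bud n 1 j = bud n 1 4 := funext fun i => by simp only [bud, lo, up]; omega
    have k : ∀ x, 9 < x → 2 * a x + cv (bud n 1 4) x = 0 := fun x hx => by
      rw [hz x (by omega)]
      obtain ⟨i, rfl | rfl⟩ := par x <;> simp only [cv_par, bud, lo, up, dl] <;> omega
    rw [e]
    refine ⟨fun x hx => ?_, fun x hx => (k x (by omega)).le, fun x y h3 h4 h5 => ?_⟩
    · exact (lt_or_ge 9 x).elim (fun c => (k x c).ge) fun c =>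
        (key 1 4 (by omega) (by omega) (.inl rfl)).1 x (by omega)
    · have := tp x h3 (by omega)
      have := tp y (by omega) h5
      simp only [k x (by omega), k y (by omega)]
      omega

/-- Two ends and a long middle part. -/
lemma pt_long {w : ℕ → ℤ} {s t : ℕ} (h : Val w) (hst : s + 2 ≤ t) {a b : ℤ → ℤ}
    (ha : Sd a (w (s + 1) - w s) 1) (hb : Sd b (w t - w (t + 1)) 0) :
    Pt fun x => a (x - 2 * w s) + cv (D w (s + 1) (t + 1)) x + b (x - 2 * w (t + 1)) := by
  obtain ⟨e, j, h1, h2, h3⟩ := h.piv hst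
  obtain ⟨a1, a2, a3⟩ := ha e (j - w s) (h1.imp_right fun c => ⟨c.1, c.2.1⟩)
  obtain ⟨b1, b2, b3⟩ := hb e (j - w (t + 1)) (h1.imp_right fun c => ⟨c.1, c.2.2⟩)
  obtain ⟨c1, c2, c3⟩ := cn_cv (j := j) (d := fun i => 2 * D w (s + 1) (t + 1) i -
    bud (w (s + 1) - w s) e (j - w s) (i - w s) -
      bud (w t - w (t + 1)) e (j - w (t + 1)) (i - w (t + 1))) (h1.imp_right And.left)
    (fun i hi => by have := h2 i hi; omega) fun i hi => by have := h3 i hi; omega
  have key : ∀ x, 2 * (a (x - 2 * w s) + cv (D w (s + 1) (t + 1)) x + b (x - 2 * w (t + 1))) =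
      (2 * a (x - 2 * w s) + cv (bud (w (s + 1) - w s) e (j - w s)) (x - 2 * w s)) +
      (2 * b (x - 2 * w (t + 1)) + cv (bud (w t - w (t + 1)) e (j - w (t + 1))) (x - 2 * w (t + 1))) +
      cv (fun i => 2 * D w (s + 1) (t + 1) i - bud (w (s + 1) - w s) e (j - w s) (i - w s) -
        bud (w t - w (t + 1)) e (j - w (t + 1)) (i - w (t + 1))) x := fun x => by
    rw [cv_shift, cv_shift]
    simp only [cv]
    ring
  intro x y hxy hx
  have kx := key x
  have ky := key y
  dsimp only at a1 a2 a3 b1 b2 b3 hx ⊢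
  by_cases l : x < 2 * (j + e)
  · have := a1 (x - 2 * w s) (by omega)
    have := b1 (x - 2 * w (t + 1)) (by omega)
    have := c1 x l
    omega
  by_cases l' : 2 * j + 5 < y
  · have := a2 (y - 2 * w s) (by omega)
    have := b2 (y - 2 * w (t + 1)) (by omega)
    have := c2 y l'
    omega
  have a4 := a3 (x - 2 * w s) (y - 2 * w s) (by omega) (by omega) (by omega)
  have b4 := b3 (x - 2 * w (t + 1)) (y - 2 * w (t + 1)) (by omega) (by omega) (by omega)
  have c4 := c3 x y (by omega) hxy (by omega)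
  have r : ∀ x c : ℤ, x - 2 * c - 2 * (j - c) = x - 2 * j := fun x c => by ring
  have tp : ∀ x, 0 ≤ T e x := fun x => by
    rcases h1 with rfl | ⟨rfl, -⟩ <;> simp only [T, R] <;> omega
  simp only [r] at a4 b4
  by_contra hy
  have e1 := mul_le_mul_of_nonneg_right (Int.add_one_le_of_lt hx) (tp (y - 2 * j))
  have e2 := mul_le_mul_of_nonneg_right (Int.add_one_le_of_lt (not_le.1 hy)) (tp (x - 2 * j))
  have e3 := congrArg (· * T e (y - 2 * j)) kx
  have e4 := congrArg (· * T e (x - 2 * j)) ky
  linarith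

lemma dg_succ (h x : ℕ) : dg h (x + 1) = dg (h / 64) x := by
  show h / 64 ^ (x + 1) % 64 = h / 64 / 64 ^ x % 64
  rw [Nat.div_div_eq_div_mul, pow_succ']

lemma dg_zero (h : ℕ) : dg h 0 = h % 64 := congrArg (· % 64) (Nat.div_one h)

lemma dg_add (a : ℕ) : ∀ h x, dg h a < 63 → dg (h + 64 ^ a) x = dg h x + if a = x then 1 else 0 := by
  induction a with
  | zero =>
    intro h x e
    rw [dg_zero] at e
    cases x with
    | zero => simp only [dg_zero, if_true]; omega
    | succ x => rw [dg_succ, dg_succ, if_neg (by omega), show (h + 64 ^ 0) / 64 = h / 64 by omega,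
        add_zero]
  | succ a ih =>
    intro h x e
    rw [dg_succ] at e
    cases x with
    | zero => rw [dg_zero, dg_zero, if_neg (by omega), pow_succ]; omega
    | succ x =>
      rw [dg_succ, dg_succ, show (h + 64 ^ (a + 1)) / 64 = h / 64 + 64 ^ a by rw [pow_succ]; omega,
        ih _ _ e]
      simp

/-- Unimodal functions. -/
def Un (F : ℤ → ℤ) : Prop := ∀ i j k, i < j → j < k → F i ≤ F j ∨ F k ≤ F j

lemma H_cons (a : ℕ) (l : List ℕ) (v : ℕ) (x : ℤ) :
    H (lf (a :: l)) 0 (v + 1) x = H (lf l) 0 v x + dl a x := by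
  simp only [H, ← range_eq_Ico, sum_range_succ']
  rfl

lemma run_spec {l : List ℕ} : ∀ {h m : ℕ} {F : ℤ → ℤ}, run l h m = true → (∀ a ∈ l, 1 ≤ a) →
    (∀ x : ℕ, F x = dg h x) → (∀ x, F x ≤ m) → Un F →
      ∀ v ≤ l.length, Un fun x => F x + H (lf l) 0 v x := by
  induction l with
  | nil => exact fun _ _ _ _ u v hv => by simpa only [Nat.le_zero.1 hv, H_self, add_zero] using u
  | cons a l ih =>
    intro h m F e h1 h2 h3 u v hv
    cases v with
    | zero => simpa only [H_self, add_zero] using u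
    | succ v =>
      have a1 := h1 a (by simp)
      have e1 := h2 a
      have e2 := h2 (a - 1)
      have e3 := h2 (a + 1)
      rw [Nat.cast_sub a1] at e2
      push_cast at e2 e3
      obtain ⟨c, m', c1, c2, c3⟩ : dg h a < 63 ∧ ∃ m', run l (h + 64 ^ a) m' = true ∧
          (m ≤ m' ∧ F a < m') ∧ (m ≤ F a ∨ F a < F (a - 1) ∨ F a < F (a + 1)) := by
        have e' : (Nat.blt (dg h a) 63 && cond (Nat.ble m (dg h a))
          (run l (h + 64 ^ a) (dg h a + 1)) ((Nat.blt (dg h a) (dg h (a - 1)) ||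
            Nat.blt (dg h a) (dg h (a + 1))) && run l (h + 64 ^ a) m)) = true := e
        rw [Bool.and_eq_true, Nat.blt_eq] at e'
        refine ⟨e'.1, ?_⟩
        cases c : Nat.ble m (dg h a)
        · simp only [c, cond_false, Bool.and_eq_true, Bool.or_eq_true, Nat.blt_eq] at e'
          have := mt Nat.ble_eq.mpr (Bool.eq_false_iff.1 c)
          exact ⟨m, e'.2.2, by omega, by omega⟩
        · simp only [c, cond_true] at e'
          rw [Nat.ble_eq] at c
          exact ⟨_, e'.2, by omega, by omega⟩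
      have := ih (F := fun x => F x + dl a x) c1 (fun b hb => h1 b (by simp [hb]))
        (fun x => by rw [dg_add a h x c, h2, dl]; push_cast; simp only [Nat.cast_inj])
        (fun x => by have := h3 x; have : (a : ℤ) = x → F a = F x := congrArg F; unfold dl; omega)
        (fun i j k hij hjk => by
          have := u i j k hij hjk
          have := u (a - 1) a k (by omega)
          have := u (a + 1) j k
          have := u i a (a + 1)
          have := u i j (a - 1) hij
          have := h3 i
          have := h3 k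
          have : (a : ℤ) = i → F a = F i := congrArg F
          have : (a : ℤ) = k → F a = F k := congrArg F
          have : (a : ℤ) + 1 = j → F (a + 1) = F j := congrArg F
          have : (a : ℤ) - 1 = j → F (a - 1) = F j := congrArg F
          simp only [dl]
          omega) v (by simpa using hv)
      simpa only [H_cons, add_assoc, add_comm (dl a _)] using this

lemma runs_spec : ∀ {m : ℕ} {l : List ℕ}, runs m l = true → ∀ u < m, run (l.drop u) 0 0 = true
  | _ + 1, [], _, u, _ => by rw [List.drop_nil]; rfl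
  | m + 1, a :: l, h, u, hu => by
    rw [runs, Bool.and_eq_true] at h
    cases u with
    | zero => exact h.1
    | succ u => exact runs_spec h.2 u (by omega)

lemma Un.pt {F : ℤ → ℤ} (h : Un F) : Pt fun x => F x - F (x - 1) := fun x y hxy hx => by
  have := h (x - 1) x y (by omega) hxy
  have := h (x - 1) (y - 1) y
  dsimp only at hx ⊢
  omega

end Pool.Agent.P.MP_77a832_co.Ps
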