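import Mathlib

/-! A chain of strongly separated sets extends to a reduced word of the longest permutation. -/

namespace Pool.Agent.P.MP_77a832_co.Ps

open Finset Equiv

/-- The product of the adjacent transpositions named by a word. -/
def pr (w : List ℕ) : Perm ℕ := (w.map fun i => swap (i - 1) i).prod

/-- Inversions. -/
def iv (n : ℕ) (w : List ℕ) : Finset (ℕ × ℕ) :=
  (range n ×ˢ range n).filter fun p => p.1 < p.2 ∧ pr w p.2 < pr w p.1

/-- Reduced words. -/
def Red (n : ℕ) (w : List ℕ) : Prop := (∀ i ∈ w, 1 ≤ i ∧ i < n) ∧ w.length = #(iv n w)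

/-- The elements in the first `k` places. -/
def tp (n k : ℕ) (w : List ℕ) : Finset ℕ := (range n).filter fun a => pr w a < k

variable {n k : ℕ} {w : List ℕ}

lemma pr_cons (i : ℕ) (w : List ℕ) (a : ℕ) : pr (i :: w) a = swap (i - 1) i (pr w a) := rfl

lemma pr_lt (h : ∀ i ∈ w, 1 ≤ i ∧ i < n) (a : ℕ) : pr w a < n ↔ a < n := by
  induction w with
  | nil => rfl
  | cons i w ih =>
    have := h i (by simp)
    rw [← ih fun j hj => h j (by simp [hj]), pr_cons, swap_apply_def]
    split_ifs <;> omega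

lemma mem_iv {a b : ℕ} : (a, b) ∈ iv n w ↔ a < b ∧ b < n ∧ pr w b < pr w a := by
  simp only [iv, mem_filter, mem_product, mem_range]
  omega

lemma card_tp (h : Red n w) (hk : k ≤ n) : #(tp n k w) = k := by
  refine Eq.trans ?_ (card_range k)
  refine card_bij (fun a _ => pr w a) (fun a ha => by simpa using (mem_filter.1 ha).2)
    (fun a _ b _ e => (pr w).injective e) fun q hq => ⟨(pr w).symm q, ?_, by simp⟩
  rw [mem_range] at hq
  simp only [tp, mem_filter, mem_range, ← pr_lt h.1 ((pr w).symm q), apply_symm_apply]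
  omega

lemma tp_app (u : List ℕ) (hu : ∀ i ∈ u, 1 ≤ i) (hk : k ∉ u) : tp n k (u ++ w) = tp n k w := by
  induction u with
  | nil => rfl
  | cons i u ih =>
    rw [← ih (fun j hj => hu j (by simp [hj])) fun e => hk (by simp [e])]
    have := hu i (by simp)
    have : k ≠ i := fun e => hk (by simp [e])
    refine filter_congr fun a _ => ?_
    rw [List.cons_append, pr_cons, swap_apply_def]
    split_ifs <;> omega

lemma iv_step {a b : ℕ} (hab : a < b) (hb : b < n) (e : pr w a + 1 = pr w b) :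
    iv n (pr w b :: w) = insert (a, b) (iv n w) := by
  ext ⟨x, y⟩
  have i1 : pr w x = pr w a ↔ x = a := (pr w).injective.eq_iff
  have i2 : pr w x = pr w b ↔ x = b := (pr w).injective.eq_iff
  have i3 : pr w y = pr w a ↔ y = a := (pr w).injective.eq_iff
  have i4 : pr w y = pr w b ↔ y = b := (pr w).injective.eq_iff
  rw [mem_insert, mem_iv, mem_iv, pr_cons, pr_cons, swap_apply_def, swap_apply_def, Prod.mk.injEq]
  split_ifs <;> omega

lemma sort (κ : ℕ → ℕ) (hκ : ∀ a < n, ∀ b < n, κ a = κ b → a = b) (m : ℕ) :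
    ∀ w, Red n w → n * n ≤ w.length + m → (∀ p ∈ iv n w, κ p.2 < κ p.1) →
      ∃ u, Red n (u ++ w) ∧ ∀ a < n, ∀ b < n, (pr (u ++ w) a < pr (u ++ w) b ↔ κ a < κ b) := by
  induction m using Nat.strong_induction_on with
  | _ m ih =>
  intro w h hm hc
  by_cases e : ∃ a < n, ∃ b < n, pr w a + 1 = pr w b ∧ κ b < κ a
  · obtain ⟨a, ha, b, hb, e, e'⟩ := e
    have hab : a < b := by
      rcases lt_trichotomy a b with l | rfl | l
      · exact l
      · omega
      · exact absurd (hc (b, a) (mem_iv.2 ⟨l, ha, by omega⟩)) e'.not_gt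
    have h1 : Red n (pr w b :: w) := ⟨fun i hi => by
      rcases List.mem_cons.1 hi with rfl | hi
      · exact ⟨by omega, (pr_lt h.1 b).2 hb⟩
      · exact h.1 i hi, by
      rw [iv_step hab hb e, card_insert_of_notMem (by rw [mem_iv]; omega), List.length_cons, h.2]⟩
    have h2 : #(iv n (pr w b :: w)) ≤ n * n := (card_filter_le _ _).trans (by simp)
    rw [← h1.2, List.length_cons] at h2
    obtain ⟨u, hu⟩ := ih (m - 1) (by omega) _ h1 (by rw [List.length_cons]; omega) (by
      rw [iv_step hab hb e, forall_mem_insert]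
      exact ⟨e', hc⟩)
    exact ⟨u ++ [pr w b], by simpa using hu⟩
  · have key : ∀ d a b, a < n → b < n → pr w a + d + 1 = pr w b → κ a < κ b := by
      intro d
      induction d with
      | zero =>
        intro a b ha hb e'
        refine lt_of_le_of_ne (not_lt.1 fun l => e ⟨a, ha, b, hb, e', l⟩) fun l => ?_
        rw [hκ a ha b hb l] at e'
        omega
      | succ d ihd =>
        intro a b ha hb e'
        obtain ⟨c, hc⟩ := (pr w).surjective (pr w a + d + 1)
        have h1 : c < n := (pr_lt h.1 c).1 (by have := (pr_lt h.1 b).2 hb; omega)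
        refine (ihd a c ha h1 hc.symm).trans (lt_of_le_of_ne
          (not_lt.1 fun l => e ⟨c, h1, b, hb, by omega, l⟩) fun l => ?_)
        rw [hκ c h1 b hb l] at hc
        omega
    refine ⟨[], h, fun a ha b hb => ⟨fun l => key (pr w b - pr w a - 1) a b ha hb (by
      rw [List.nil_append] at l; omega), fun l => ?_⟩⟩
    rcases lt_trichotomy (pr w a) (pr w b) with l' | l' | l'
    · exact l'
    · rw [(pr w).injective l'] at l
      omega
    · exact absurd (key (pr w a - pr w b - 1) b a hb ha (by omega)) l.not_gt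

lemma step (h : Red n w) (S : Finset ℕ) (hS : S ⊆ range n) (hk : #S = k)
    (hc : ∀ p ∈ iv n w, p.1 ∈ S → p.2 ∈ S) : ∃ u, Red n (u ++ w) ∧ tp n k (u ++ w) = S ∧
      ∀ p ∈ iv n (u ++ w), p ∈ iv n w ∨ (p.2 ∈ S ∧ p.1 ∉ S) := by
  have l := fun a => (pr_lt h.1 a).2
  obtain ⟨u, h1, h2⟩ := sort (n := n) (fun a => (if a ∈ S then 0 else n) + pr w a)
    (fun a ha b hb e => (pr w).injective (by
      have := l a ha
      have := l b hb
      split_ifs at e <;> omega)) _ w h (Nat.le_add_left _ _) (by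
      rintro ⟨a, b⟩ hp
      have := hc _ hp
      rw [mem_iv] at hp
      have := l b hp.2.1
      dsimp only at *
      split_ifs <;> first | omega | tauto)
  have h3 : k ≤ n := by simpa [hk] using card_le_card hS
  refine ⟨u, h1, ?_, ?_⟩
  · by_contra e
    obtain ⟨a, a1, a2⟩ := not_subset.1 fun s => e (eq_of_subset_of_card_le s (by
      rw [hk, card_tp h1 h3]))
    obtain ⟨b, b1, b2⟩ := not_subset.1 fun s => e (eq_of_subset_of_card_le s (by
      rw [hk, card_tp h1 h3])).symm
    have := mem_range.1 (hS b1)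
    simp only [tp, mem_filter, mem_range] at a1 b2
    have := (h2 b this a a1.1).2 (by have := l b this; simp only [a2, b1, if_true, if_false]; omega)
    omega
  · rintro ⟨a, b⟩ hp
    rw [mem_iv] at hp ⊢
    have := (h2 b hp.2.1 a (by omega)).1 hp.2.2
    have := l a (by omega)
    split_ifs at * <;> first | omega | tauto

/-- A chain of `m + 1` strongly separated `k`-subsets of an `n`-set. -/
def Ch (n k m : ℕ) : Prop := ∃ S : ℕ → Finset ℕ, (∀ i ≤ m, S i ⊆ range n ∧ #(S i) = k) ∧
  (∀ i j, i < j → j ≤ m → ∀ a ∈ S i, a ∉ S j → ∀ b ∈ S j, b ∉ S i → a < b) ∧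
    ∀ i < m, S i ≠ S (i + 1)

theorem ext {m : ℕ} (h : Ch n k m) : ∃ w : List ℕ, (∀ i ∈ w, 1 ≤ i ∧ i < n) ∧
    w.length = n.choose 2 ∧ (∀ a < n, pr w a = n - 1 - a) ∧ m ≤ w.count k := by
  obtain ⟨S, h1, h2, h3⟩ := h
  have key : ∀ i ≤ m, ∃ w, Red n w ∧ tp n k w = S i ∧ i ≤ w.count k ∧
      ∀ p ∈ iv n w, ∃ j ≤ i, p.2 ∈ S j ∧ p.1 ∉ S j := by
    have h0 : iv n [] = ∅ := eq_empty_of_forall_notMem fun ⟨a, b⟩ e => by
      rw [mem_iv] at e
      exact e.1.not_gt e.2.2
    intro i
    induction i with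
    | zero =>
      intro hi
      obtain ⟨u, a, b, c⟩ := step (n := n) (w := []) ⟨by simp, by simp [h0]⟩ _ (h1 0 hi).1 (h1 0 hi).2
        (by simp [h0])
      exact ⟨_, a, b, Nat.zero_le _, fun p hp => ⟨0, le_rfl, by simpa [h0] using c p hp⟩⟩
    | succ i ih =>
      intro hi
      obtain ⟨w, a, b, c, d⟩ := ih (by omega)
      obtain ⟨u, a', b', c'⟩ := step a _ (h1 _ hi).1 (h1 _ hi).2 fun p hp e => by_contra fun e' => by
        obtain ⟨j, j1, j2, j3⟩ := d p hp
        exact (h2 j (i + 1) (by omega) hi _ j2 e' _ e j3).not_gt (mem_iv.1 hp).1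
      refine ⟨_, a', b', ?_, fun p hp => (c' p hp).elim
        (fun e => let ⟨j, j1, j2⟩ := d p e; ⟨j, by omega, j2⟩) fun e => ⟨_, le_rfl, e⟩⟩
      have : k ∈ u := by_contra fun e => h3 i hi (by
        rw [← b, ← b', tp_app u (fun j hj => (a'.1 j (by simp [hj])).1) e])
      have := List.count_pos_iff.2 this
      rw [List.count_append]
      omega
  obtain ⟨w, a, -, c, -⟩ := key m le_rfl
  obtain ⟨u, a', b'⟩ := sort (n := n) (fun a => n - a) (fun a ha b hb e => by omega) _ w a
    (Nat.le_add_left _ _) fun p hp => by have := mem_iv.1 hp; omega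
  refine ⟨_, a'.1, ?_, fun x hx => ?_, by rw [List.count_append]; omega⟩
  · rw [a'.2, ← card_range n, ← card_product_filter_lt, card_range]
    refine congrArg _ (filter_congr fun p hp => and_iff_left_of_imp fun e => ?_)
    simp only [mem_product, mem_range] at hp
    exact (b' _ hp.2 _ hp.1).2 (by omega)
  · rw [← card_tp a' ((pr_lt a'.1 x).2 hx).le, show tp n (pr (u ++ w) x) (u ++ w) = Ioo x n from ?_,
      Nat.card_Ioo, Nat.sub_right_comm]
    ext y
    simp only [tp, mem_filter, mem_range, mem_Ioo]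
    exact ⟨fun e => ⟨by have := (b' y e.1 x hx).1 e.2; omega, e.1⟩,
      fun e => ⟨e.2, (b' y e.2 x hx).2 (by omega)⟩⟩

end Pool.Agent.P.MP_77a832_co.Ps
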