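import Pool.Agent.P.MP_77a832_co.Ps.Word

/-! The pivot of a long factor of a valid word. -/

namespace Pool.Agent.P.MP_77a832_co.Ps

open Finset

variable {w : ℕ → ℤ} {a b s t : ℕ}

lemma Val.tri (h : Val w) (a b : ℕ) (g : ℤ) :
    H w a b (g - 1) ≤ H w a b g ∨ H w a b (g + 1) ≤ H w a b g := by
  have := h.pt a b g (g + 1) (by omega)
  simp only [D, add_sub_cancel_right] at this
  omega

lemma H_left (h : a < b) (g : ℤ) : H w a b g = dl (w a) g + H w (a + 1) b g := by
  rw [H_add (Nat.le_add_right a 1) h, H_one]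

lemma H_right (h : a ≤ b) (g : ℤ) : H w a (b + 1) g = H w a b g + dl (w b) g := by
  rw [H_add h (Nat.le_add_right b 1), H_one]

/-- No plateau below a strict increase, on the far side of both ends. -/
lemma Val.ivt (h : Val w) {σ : ℤ} (hσ : σ = 1 ∨ σ = -1) (hab : a ≤ b) (g : ℤ)
    (h0 : 0 < σ * (w a - g)) (h1 : 0 < σ * (w b - g)) (h2 : 1 ≤ H w a (b + 1) g)
    (h3 : H w a (b + 1) g < H w a (b + 1) (g + σ)) : H w a (b + 1) (g - σ) < H w a (b + 1) g := by
  have k1 : ∀ d v, v + d = b + 1 → (H w v (b + 1) g = 0 ∧ (v ≤ b → 0 < σ * (w v - g))) ∨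
      ∃ u, v ≤ u ∧ u ≤ b ∧ w u = g ∧ H w (u + 1) (b + 1) g < H w (u + 1) (b + 1) (g + σ) := by
    intro d
    induction d with
    | zero => exact fun v e => .inl ⟨e ▸ H_self _ _, by omega⟩
    | succ d ih =>
      intro v e
      rcases ih (v + 1) (by omega) with ⟨e1, e2⟩ | ⟨u, e1, e2⟩
      · have := h.st v
        have e3 : v = b → w v = w b := congrArg w
        by_cases e4 : w v = g
        · have l : v + 1 < b + 1 := by rcases hσ with rfl | rfl <;> omega
          have := H_bd (w := w) (v + 1 + 1) (b + 1) (g + σ)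
          refine .inr ⟨v, le_rfl, by omega, e4, ?_⟩
          rw [e1, H_left l, dl, if_pos (by rcases hσ with rfl | rfl <;> omega)]
          omega
        · rw [H_left (by omega), dl, if_neg e4, e1]
          exact .inl ⟨rfl, by rcases hσ with rfl | rfl <;> omega⟩
      · exact .inr ⟨u, by omega, e2⟩
  have ex := (k1 (b + 1 - a) a (by omega)).resolve_left (by omega)
  obtain ⟨u1, u2, u3, u4⟩ := Nat.find_spec ex
  have mn := fun v => Nat.find_min ex (m := v)
  generalize Nat.find ex = u at *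
  have sp : ∀ v, a ≤ v → v ≤ b → ∀ x, H w a (b + 1) x =
      H w a v x + (dl (w v) x + H w (v + 1) (b + 1) x) := fun v v1 v2 x => by
    rw [H_add v1 (by omega), H_left (a := v) (by omega)]
  have k2 : ∀ v, a ≤ v → v ≤ u → (H w a v g = 0 ∧ 0 ≤ σ * (w v - g) ∧
      (w v = g → 1 ≤ H w a v (g + σ))) ∨ H w a v g < H w a v (g + σ) := by
    intro v hv
    induction v, hv using Nat.le_induction with
    | base => exact fun _ => .inl ⟨H_self _ _, h0.le, fun e => by simp [e] at h0⟩
    | succ v hv ih =>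
      intro l
      have := ih (by omega)
      have := mn v l
      have := h.st v
      have := sp v hv (by omega) g
      have := sp v hv (by omega) (g + σ)
      have := H_bd (w := w) a v (g + σ)
      rw [H_right hv, H_right hv]
      unfold dl at *
      rcases hσ with rfl | rfl <;> omega
  have := k2 u u1 le_rfl
  have := sp u u1 u2 g
  have := sp u u1 u2 (g + 1)
  have := sp u u1 u2 (g - 1)
  have := h.tri a u g
  have := h.tri (u + 1) (b + 1) g
  unfold dl at *
  rcases hσ with rfl | rfl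
  · omega
  · simp only [sub_neg_eq_add, ← sub_eq_add_neg] at *
    omega

/-- Crossing numbers. -/
lemma Val.cross (h : Val w) (hst : s ≤ t) (g : ℤ) :
    H (fun u => min (w u) (w (u + 1))) s t (g - 1) + H (fun u => min (w u) (w (u + 1))) s t g =
      H w s t g + H w (s + 1) (t + 1) g := by
  induction t, hst using Nat.le_induction with
  | base => simp only [H_self]
  | succ t l ih =>
    have := h.st t
    rw [H_right l, H_right l, H_right l, H_right (Nat.add_le_add_right l 1)]
    unfold dl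
    omega

lemma H_two (hst : s + 1 ≤ t) (g : ℤ) : dl (w s) g + dl (w t) g ≤ H w s (t + 1) g := by
  have := H_bd (w := w) (s + 1) t g
  rw [H_right (by omega), H_left hst]
  omega

/-- Budget to the left of the pivot. -/
def lo (n i : ℤ) : ℤ := if i = 1 ∨ i = n then 1 else 0

/-- Budget to the right of the pivot. -/
def up (n i : ℤ) : ℤ := if i = 0 ∨ i = n + 1 then 1 else 0

/-- Twice the budget of one end. -/
def bud (n e j i : ℤ) : ℤ :=
  if e = 0 ∧ 2 * j + n = 1 then dl (j - 2) i - dl (j + 2) i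
  else if i < j + e then 2 * lo n i else if j < i then -2 * up n i else 0

lemma Val.inv (h : Val w) (hst : s + 2 ≤ t) {x y : ℤ} (hxy : x < y) :
    lo (w (s + 1) - w s) (x - w s) + lo (w t - w (t + 1)) (x - w (t + 1)) ≤ D w (s + 1) (t + 1) x ∨
    D w (s + 1) (t + 1) y + up (w (s + 1) - w s) (y - w s) +
      up (w t - w (t + 1)) (y - w (t + 1)) ≤ 0 := by
  obtain ⟨a, a1, a2, a3⟩ : ∃ a ≤ t, (∀ b, t ≤ b → D w a b x + lo (w (s + 1) - w s) (x - w s) ≤
      D w (s + 1) b x) ∧ ∀ b, t ≤ b → D w (s + 1) b y + up (w (s + 1) - w s) (y - w s) ≤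
        D w a b y := by
    have := h.st s
    have e := fun b (l : t ≤ b) z => D_add (w := w) (Nat.le_add_right s 1) (c := b) (by omega) z
    have e' := fun b (l : t ≤ b) z =>
      D_add (w := w) (Nat.le_add_right (s + 1) 1) (c := b) (by omega) z
    simp only [D_one] at e e'
    by_cases c : x = w (s + 1)
    · refine ⟨s + 1 + 1, hst, fun b l => ?_, fun b l => ?_⟩ <;> rw [e' b l] <;>
        simp only [lo, up, dl] <;> omega
    by_cases c' : y = w (s + 1) + 1
    · refine ⟨s + 1 + 1, hst, fun b l => ?_, fun b l => ?_⟩ <;> rw [e' b l] <;>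
        simp only [lo, up, dl] <;> omega
    by_cases c'' : x = w s + 1 ∨ y = w s
    · refine ⟨s, by omega, fun b l => ?_, fun b l => ?_⟩ <;> rw [e b l] <;>
        simp only [lo, up, dl] <;> omega
    · refine ⟨s + 1, by omega, fun b l => ?_, fun b l => ?_⟩ <;> simp only [lo, up] <;> omega
  obtain ⟨b, b1, b2, b3⟩ : ∃ b, t ≤ b ∧ D w (s + 1) b x + lo (w t - w (t + 1)) (x - w (t + 1)) ≤
      D w (s + 1) (t + 1) x ∧ D w (s + 1) (t + 1) y + up (w t - w (t + 1)) (y - w (t + 1)) ≤
        D w (s + 1) b y := by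
    have := h.st t
    have e := fun z => D_add (w := w) (a := s + 1) (by omega) (Nat.le_add_right t 1) z
    have e' := fun z => D_add (w := w) (a := s + 1) (by omega) (Nat.le_add_right (t + 1) 1) z
    simp only [D_one] at e e'
    by_cases c : x = w t ∨ y = w t + 1
    · refine ⟨t, le_rfl, ?_, ?_⟩ <;> rw [e] <;> simp only [lo, up, dl] <;> omega
    by_cases c'' : x = w (t + 1) + 1 ∨ y = w (t + 1)
    · refine ⟨t + 1 + 1, by omega, ?_, ?_⟩ <;> rw [e'] <;> simp only [lo, up, dl] <;> omega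
    · refine ⟨t + 1, by omega, ?_, ?_⟩ <;> simp only [lo, up] <;> omega
  have := h.pt a b x y hxy
  have := a2 b b1
  have := a3 b b1
  omega

lemma Val.extra (h : Val w) (hst : s + 2 ≤ t) {σ c : ℤ} (hσ : σ = 1 ∨ σ = -1)
    (h0 : (w s = c ∧ w (s + 1) = c + σ ∧ (H w (s + 1) (t + 1) (c - σ) = H w (s + 1) (t + 1) c + 1 ∧
        (w (t + 1) = c ∨ w (t + 1) = c - 2 * σ ∧ w t = c - σ) ∨
      H w (s + 1) (t + 1) (c - σ) = H w (s + 1) (t + 1) c ∧ w t = c)) ∨
     (w (t + 1) = c ∧ w t = c + σ ∧ (H w (s + 1) (t + 1) (c - σ) = H w (s + 1) (t + 1) c + 1 ∧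
        (w s = c ∨ w s = c - 2 * σ ∧ w (s + 1) = c - σ) ∨
      H w (s + 1) (t + 1) (c - σ) = H w (s + 1) (t + 1) c ∧ w (s + 1) = c)))
    (h1 : w (s + 1) = c - σ ∨ w t = c - σ →
      H w (s + 1) (t + 1) (c - 2 * σ) < H w (s + 1) (t + 1) (c - σ)) :
    H w (s + 1) (t + 1) (c - 3 * σ) < H w (s + 1) (t + 1) (c - 2 * σ) := by
  have i1 := h.ivt hσ (a := s) (b := t + 1) (by omega) (c - σ)
  have i2 := h.ivt hσ (a := s) (b := t) (by omega) (c - σ)
  have i3 := h.ivt hσ (a := s + 1) (b := t + 1) (by omega) (c - σ)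
  have i4 := h.ivt hσ (a := s + 1) (b := t) (by omega) (c - 2 * σ)
  have m := fun g => h.cross (s := s) (t := t + 1) (by omega) g
  have m' := fun g => H_two (w := fun u => min (w u) (w (u + 1))) (s := s) (t := t) (by omega) g
  simp only [H_right (w := w) (b := t + 1) (show s ≤ t + 1 by omega),
    H_right (w := w) (b := t + 1) (show s + 1 ≤ t + 1 by omega),
    H_left (w := w) (show s < t + 1 by omega), sub_add_cancel,
    show c - σ - σ = c - 2 * σ by ring, show c - 2 * σ + σ = c - σ by ring,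
    show c - 2 * σ - σ = c - 3 * σ by ring] at i1 i2 i3 i4 m
  have s1 := h.st s
  have s2 := h.st t
  have m0 := (H_bd (w := w) (s + 1) (t + 1) c).1
  have m1 := m c
  have m2 := m (c - σ)
  have m3 := m (c - 2 * σ)
  have a1 := m' c
  have a2 := m' (c - 1)
  have a3 := m' (c - σ)
  have a4 := m' (c - σ - 1)
  have a5 := m' (c - 2 * σ)
  have a6 := m' (c - 2 * σ - 1)
  clear m m'
  have e : H (fun u => min (w u) (w (u + 1))) s (t + 1) (c - σ - 1) +
      H (fun u => min (w u) (w (u + 1))) s (t + 1) (c - σ) = if σ = 1 then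
        H (fun u => min (w u) (w (u + 1))) s (t + 1) (c - 2 * σ) +
          H (fun u => min (w u) (w (u + 1))) s (t + 1) (c - 1) else
        H (fun u => min (w u) (w (u + 1))) s (t + 1) c +
          H (fun u => min (w u) (w (u + 1))) s (t + 1) (c - 2 * σ - 1) := by
    rcases hσ with rfl | rfl <;> simp only [if_true, show ¬ (-1 : ℤ) = 1 by omega, if_false] <;>
      congr 2 <;> ring
  revert i1 i2 i3 i4 m1 m2 m3 a1 a2 a3 a4 a5 a6 e
  rcases hσ with rfl | rfl <;> rcases s1 with s1 | s1 <;> rcases s2 with s2 | s2 <;>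
    rcases h0 with ⟨a, b, ⟨c, d | d⟩ | d⟩ | ⟨a, b, ⟨c, d | d⟩ | d⟩ <;> first | (exfalso; omega) |
      (simp (disch := omega) only [dl, if_true, if_pos, if_neg, min_eq_left, min_eq_right]; omega)

/-- The pivot. -/
lemma Val.piv (h : Val w) (hst : s + 2 ≤ t) : ∃ e j : ℤ,
    (e = 1 ∨ e = 0 ∧ lo (w (s + 1) - w s) (j - w s) + up (w (s + 1) - w s) (j - w s) = 1 ∧
      lo (w t - w (t + 1)) (j - w (t + 1)) + up (w t - w (t + 1)) (j - w (t + 1)) = 1) ∧
    (∀ i < j + e, bud (w (s + 1) - w s) e (j - w s) (i - w s) +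
      bud (w t - w (t + 1)) e (j - w (t + 1)) (i - w (t + 1)) ≤ 2 * D w (s + 1) (t + 1) i) ∧
    ∀ i, j < i → 2 * D w (s + 1) (t + 1) i ≤ bud (w (s + 1) - w s) e (j - w s) (i - w s) +
      bud (w t - w (t + 1)) e (j - w (t + 1)) (i - w (t + 1)) := by
  obtain ⟨B, hB⟩ : ∃ B : ℤ, ∀ u ≤ t + 1, -B ≤ w u ∧ w u ≤ B :=
    ⟨∑ u ∈ range (t + 2), |w u|, fun u hu => abs_le.1
      (single_le_sum (f := fun u => |w u|) (fun _ _ => abs_nonneg _) (mem_range.2 (by omega)))⟩
  have z : ∀ x, x < -B ∨ B + 1 < x → D w (s + 1) (t + 1) x = 0 := fun x hx => by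
    rw [D, H_zero, H_zero, sub_zero] <;> intro u _ hu <;> have := hB u hu.le <;> omega
  have s1 := h.st s
  have s2 := h.st t
  have b1 := hB s (by omega)
  have b2 := hB (t + 1) le_rfl
  obtain ⟨j, j1, j2⟩ := Int.exists_least_of_bdd (P := fun x => x = B + 3 ∨
    D w (s + 1) (t + 1) x < lo (w (s + 1) - w s) (x - w s) + lo (w t - w (t + 1)) (x - w (t + 1)))
    ⟨-B - 2, fun x hx => by have := z x; simp only [lo] at hx; omega⟩ ⟨_, .inl rfl⟩
  have L : ∀ i < j, lo (w (s + 1) - w s) (i - w s) + lo (w t - w (t + 1)) (i - w (t + 1)) ≤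
      D w (s + 1) (t + 1) i := fun i hi => not_lt.1 fun e => (j2 i (.inr e)).not_gt hi
  have U : ∀ i, j < i → D w (s + 1) (t + 1) i + up (w (s + 1) - w s) (i - w s) +
      up (w t - w (t + 1)) (i - w (t + 1)) ≤ 0 := fun i hi => by
    have := h.inv hst hi
    have := z i
    simp only [up] at *
    omega
  by_cases c : D w (s + 1) (t + 1) j + up (w (s + 1) - w s) (j - w s) +
      up (w t - w (t + 1)) (j - w (t + 1)) ≤ 0
  · refine ⟨1, j - 1, .inl rfl, fun i hi => ?_, fun i hi => ?_⟩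
    · have := L i (by omega)
      simp only [bud]
      omega
    · have : D w (s + 1) (t + 1) i + up (w (s + 1) - w s) (i - w s) +
        up (w t - w (t + 1)) (i - w (t + 1)) ≤ 0 := (show j = i ∨ j < i by omega).elim (· ▸ c) (U i)
      simp only [bud]
      omega
  replace j1 := j1.resolve_left fun e => c (by have := z j; simp only [up]; omega)
  have x1 := h.extra hst (c := j) (.inl rfl)
  have x2 := h.extra hst (c := j - 1) (.inr rfl)
  have l1 := L (j - 1) (by omega)
  have l2 := L (j - 2) (by omega)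
  have u1 := U (j + 1) (by omega)
  have u2 := U (j + 2) (by omega)
  have k0 : lo (w (s + 1) - w s) (j - w s) + up (w (s + 1) - w s) (j - w s) = 1 ∧
      lo (w t - w (t + 1)) (j - w (t + 1)) + up (w t - w (t + 1)) (j - w (t + 1)) = 1 := by
    clear x1 x2 l1 l2 u1 u2
    simp only [lo, up] at c j1 ⊢
    omega
  have k1 : (w s = j + 1 ∨ w s = j ∨ w s = j - 1 ∨ w s = j - 2) ∧
      (w (t + 1) = j + 1 ∨ w (t + 1) = j ∨ w (t + 1) = j - 1 ∨ w (t + 1) = j - 2) := by
    clear x1 x2 l1 l2 u1 u2 c j1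
    simp only [lo, up] at k0
    omega
  have key : 2 * (j - w s) + (w (s + 1) - w s) = 1 ∨ 2 * (j - w (t + 1)) + (w t - w (t + 1)) = 1 →
      1 ≤ D w (s + 1) (t + 1) (j - 2) ∧ D w (s + 1) (t + 1) (j + 2) ≤ -1 := by
    simp only [D, mul_one, show j - 1 - 1 = j - 2 by ring, show j - 2 - 1 = j - 3 by ring,
      add_sub_cancel_right, show j + 2 - 1 = j + 1 by ring, show j - 1 - -1 = j by ring,
      show j - 1 - 2 * -1 = j + 1 by ring, show j - 1 - 3 * -1 = j + 2 by ring] at *
    intro e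
    revert x1 x2 l1 l2 u1 u2 c j1 k0
    rcases k1 with ⟨a | a | a | a, b | b | b | b⟩ <;> rcases s1 with s1 | s1 <;>
      rcases s2 with s2 | s2 <;> first | (exfalso; omega) |
        (simp (disch := omega) only [lo, up, if_pos, if_neg]; omega)
  clear x1 x2 l1 l2 u1 u2 c j1
  refine ⟨0, j, .inr ⟨rfl, k0⟩, fun i hi => ?_, fun i hi => ?_⟩
  · have := L i (by omega)
    have : i = j - 2 → D w (s + 1) (t + 1) i = D w (s + 1) (t + 1) (j - 2) := congrArg _
    simp only [bud, lo, up, dl, true_and] at *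
    omega
  · have := U i hi
    have : i = j + 2 → D w (s + 1) (t + 1) i = D w (s + 1) (t + 1) (j + 2) := congrArg _
    simp only [bud, lo, up, dl, true_and] at *
    omega

end Pool.Agent.P.MP_77a832_co.Ps
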