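import Pool.Agent.P.MP_77a832_co.Ps.Chk
import Pool.Agent.P.MP_77a832_co.Ps.Cone

/-! The substitution keeps words valid. -/

namespace Pool.Agent.P.MP_77a832_co.Ps

open Finset

variable {w : ℕ → ℤ}

/-- The block that replaces the letter number `τ + 1`. -/
def bl (w : ℕ → ℤ) (τ : ℕ) : List ℕ :=
  bk (decide (w τ < w (τ + 1))) (decide (w (τ + 1) < w (τ + 2)))

/-- The substitution. -/
def sub (w : ℕ → ℤ) (t : ℕ) : ℤ := 2 * w (t / 80 + 1) + lf (bl w (t / 80)) (t % 80)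

lemma chk5 : ∀ p q r n, (b3 p q r n).length = 240 ∧ (∀ a ∈ b3 p q r n, 1 ≤ a) ∧ ∀ t < 80,
    lf (b3 p q r n) t = lf (bk p q) t + 5 ∧ lf (b3 p q r n) (80 + t) = lf (bk q r) t + cond q 7 3 ∧
      lf (b3 p q r n) (160 + t) = lf (bk r n) t + cond q (cond r 9 5) (cond r 5 1) := by
  decide +kernel

lemma sub_eq (τ : ℕ) {t : ℕ} (h : t < 80) : sub w (80 * τ + t) = lf (bl w τ) t + 2 * w (τ + 1) := by
  rw [sub, show (80 * τ + t) / 80 = τ by omega, show (80 * τ + t) % 80 = t by omega, add_comm]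

lemma sub_b3 (h : Val w) (τ : ℕ) : ∃ p q r n c, ∀ t < 240,
    sub w (80 * τ + t) = lf (b3 p q r n) t + c := by
  refine ⟨decide (w τ < w (τ + 1)), decide (w (τ + 1) < w (τ + 2)), decide (w (τ + 2) < w (τ + 3)),
    decide (w (τ + 3) < w (τ + 4)), 2 * w (τ + 1) - 5, fun t ht => ?_⟩
  have k := (chk5 (decide (w τ < w (τ + 1))) (decide (w (τ + 1) < w (τ + 2)))
    (decide (w (τ + 2) < w (τ + 3))) (decide (w (τ + 3) < w (τ + 4)))).2.2
  have s1 : w (τ + 2) = _ ∨ w (τ + 2) = _ := h.st (τ + 1)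
  have s2 : w (τ + 3) = _ ∨ w (τ + 3) = _ := h.st (τ + 2)
  by_cases c : t < 80
  · rw [sub_eq τ c, (k t c).1, bl]
    ring
  by_cases c' : t < 160
  · obtain ⟨t, rfl⟩ : ∃ u, t = 80 + u := ⟨t - 80, by omega⟩
    rw [← add_assoc, ← Nat.mul_succ, sub_eq _ (by omega), (k t (by omega)).2.1, bl]
    simp only [Nat.succ_eq_add_one, add_assoc, Nat.reduceAdd, Bool.cond_decide]
    omega
  · obtain ⟨t, rfl⟩ : ∃ u, t = 160 + u := ⟨t - 160, by omega⟩
    rw [show 80 * τ + (160 + t) = 80 * (τ + 2) + t by ring, sub_eq _ (by omega),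
      (k t (by omega)).2.2, bl]
    simp only [add_assoc, Nat.reduceAdd, Bool.cond_decide]
    omega

lemma H_sh {w' : ℕ → ℤ} {a v : ℕ} {c : ℤ} (h : ∀ t < v, w (a + t) = w' t + c) (x : ℤ) :
    H w a (a + v) x = H w' 0 v (x - c) := by
  simp only [H, sum_Ico_eq_sum_range, Nat.add_sub_cancel_left, Nat.sub_zero, zero_add]
  exact sum_congr rfl fun t ht => by simp only [dl, h t (mem_range.1 ht), eq_sub_iff_add_eq]

lemma D_sh (τ : ℕ) {v : ℕ} (h : v ≤ 80) (x : ℤ) :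
    D (sub w) (80 * τ) (80 * τ + v) x = D (lf (bl w τ)) 0 v (x - 2 * w (τ + 1)) := by
  have := H_sh (v := v) fun t ht => sub_eq (w := w) τ (show t < 80 by omega)
  rw [D, D, this, this, sub_right_comm]

lemma lf_bd (p n : Bool) (t : ℕ) : 0 ≤ lf (bk p n) t ∧ lf (bk p n) t ≤ 6 := by
  refine ⟨Int.natCast_nonneg _, Int.ofNat_le.2 (?_ : _ ≤ 6)⟩
  rcases lt_or_ge t (bk p n).length with c | c
  · rw [List.getD_eq_getElem _ _ c]
    exact (chk3 p n).2.1 _ (List.getElem_mem c)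
  · rw [List.getD_eq_default _ _ c]
    omega

lemma D_full (p n : Bool) (x : ℤ) : D (lf (bk p n)) 0 80 x = R x - R (x - 2) := by
  have k : ∀ x, H (lf (bk p n)) 0 80 x = R x + R (x - 1) := fun x => by
    by_cases c : x < 0 ∨ 6 < x
    · rw [H_zero fun u _ _ => by have := lf_bd p n u; omega, R_out (by omega), R_out (by omega)]
      rfl
    · exact (chk3 p n).2.2 x (by simp only [List.mem_cons]; omega)
  rw [D, k, k, sub_sub x 1 1]
  ring_nf

lemma D_mid {τ τ' : ℕ} (h : τ ≤ τ') (x : ℤ) :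
    D (sub w) (80 * τ) (80 * τ') x = cv (D w (τ + 1) (τ' + 1)) x := by
  induction τ', h using Nat.le_induction with
  | base => simp [D, H_self, cv]
  | succ t h ih =>
    rw [D_add (b := 80 * t) (by omega) (by omega), ih, Nat.mul_succ, D_sh t le_rfl, bl, D_full,
      ← cv_dl]
    simp only [cv, D_add (show τ + 1 ≤ t + 1 by omega) (Nat.le_add_right (t + 1) 1), D_one]
    ring

lemma sd_blk (p n : Bool) {v : ℕ} (h : v ≤ 80) : Sd (D (lf (bk p n)) 0 v) (cond p (-1) 1) 0 ∧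
    Sd (fun x => R x - R (x - 2) - D (lf (bk p n)) 0 v x) (cond n 1 (-1)) 1 := by
  obtain ⟨l, h1, h2⟩ := allf_spec (chk2 p n) v (by rw [(chk3 p n).1]; exact h)
  have e : ∀ x, ev l x - ev l (x - 1) = D (lf (bk p n)) 0 v x := fun x => by
    rw [h2, h2]
    simp [ev, D]
  simp only [sd2, Bool.and_eq_true, e] at h1
  have z : ∀ x, x < 0 ∨ 7 < x → D (lf (bk p n)) 0 v x = 0 := fun x hx => by
    rw [D, H_zero, H_zero, sub_zero]
    all_goals
      intro u _ _
      have := lf_bd p n u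
      omega
  exact ⟨sd_spec (by cases p <;> simp) zero_le_one z h1.2.1, sd_spec (by cases n <;> simp) le_rfl
    (fun x hx => by rw [z x hx, R_out (by omega), R_out (by omega)]; rfl) h1.2.2⟩

lemma Val.sub (h : Val w) : Val (sub w) := by
  refine ⟨fun t => ?_, fun a b => ?_⟩
  · obtain ⟨p, q, r, n, c, e⟩ := sub_b3 h (t / 80)
    have := chk4 p q r n (t % 80) (by omega)
    have e1 := e (t % 80) (by omega)
    have e2 := e (t % 80 + 1) (by omega)
    rw [← add_assoc] at e2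
    rw [Nat.div_add_mod] at e1 e2
    omega
  rcases le_or_gt b a with l | l
  · exact fun x y _ _ => by simp [D, H, Ico_eq_empty_of_le l]
  obtain ⟨τ, u, hu, rfl⟩ : ∃ τ u, u < 80 ∧ a = 80 * τ + u := ⟨a / 80, a % 80, by omega, by omega⟩
  rcases lt_or_ge b (80 * (τ + 3)) with l' | l'
  · obtain ⟨p, q, r, n, c, e⟩ := sub_b3 h τ
    obtain ⟨v, rfl⟩ := Nat.exists_eq_add_of_le l.le
    have := (run_spec (F := fun _ => 0) (runs_spec (chk1 p q r n) u hu)
      (fun a ha => (chk5 p q r n).2.1 a (List.mem_of_mem_drop ha)) (fun x => congrArg Nat.cast (show 0 = 0 / 64 ^ x % 64 by simp))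
      (fun _ => le_rfl) (fun _ _ _ _ _ => .inl le_rfl) v
      (by rw [List.length_drop, (chk5 p q r n).1]; omega)).pt
    have k := H_sh (w := Ps.sub w) (w' := lf ((b3 p q r n).drop u)) (a := 80 * τ + u) (v := v) (c := c)
      fun t ht => by
        rw [add_assoc, e _ (by omega), lf, lf, List.getD, List.getD, List.getElem?_drop]
    intro x y hxy
    simpa only [D, k, zero_add, sub_right_comm _ c] using this (x - c) (y - c) (by omega)
  obtain ⟨t, v, hv, rfl⟩ : ∃ t v, v < 80 ∧ b = 80 * t + v := ⟨b / 80, b % 80, by omega, by omega⟩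
  have s1 : w (τ + 2) = _ ∨ w (τ + 2) = _ := h.st (τ + 1)
  have s2 := h.st t
  have := pt_long (s := τ + 1) (t := t) h (by omega)
    (a := fun x => R x - R (x - 2) - D (lf (bl w τ)) 0 u x) (b := D (lf (bl w t)) 0 v)
    (by
      have := (sd_blk (decide (w τ < w (τ + 1))) (decide (w (τ + 1) < w (τ + 2))) hu.le).2
      rwa [Bool.cond_decide, show (if w (τ + 1) < w (τ + 2) then (1 : ℤ) else -1) =
        w (τ + 2) - w (τ + 1) by omega] at this)
    (by
      have := (sd_blk (decide (w t < w (t + 1))) (decide (w (t + 1) < w (t + 2))) hv.le).1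
      rwa [Bool.cond_decide, show (if w t < w (t + 1) then (-1 : ℤ) else 1) =
        w t - w (t + 1) by omega] at this)
  have e : ∀ x, D (Ps.sub w) (80 * τ + u) (80 * t + v) x = R (x - 2 * w (τ + 1)) -
      R (x - 2 * w (τ + 1) - 2) - D (lf (bl w τ)) 0 u (x - 2 * w (τ + 1)) +
        cv (D w (τ + 1 + 1) (t + 1)) x + D (lf (bl w t)) 0 v (x - 2 * w (t + 1)) := fun x => by
    have e1 := D_add (w := Ps.sub w) (Nat.le_add_right (80 * τ) u)
      (show 80 * τ + u ≤ 80 * τ + 80 by omega) x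
    rw [D_sh τ hu.le, D_sh τ le_rfl, bl, D_full, ← bl] at e1
    rw [D_add (b := 80 * t) (by omega) (by omega), D_sh t hv.le,
      D_add (b := 80 * (τ + 1)) (by omega) (by omega), D_mid (by omega), Nat.mul_succ,
      eq_sub_of_add_eq' e1.symm]
  rwa [funext e]

lemma D_id {a b : ℕ} (h : a ≤ b) (x : ℤ) : D (fun t => t) a b x = dl a x - dl b x := by
  induction b, h using Nat.le_induction with
  | base => simp [D, H_self]
  | succ b h ih =>
    rw [D_add h (Nat.le_add_right b 1), ih, D_one]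
    simp only [dl]
    omega

lemma val_id : Val fun t => t := by
  refine ⟨fun t => .inl (Nat.cast_succ t), fun a b x y hxy => ?_⟩
  rcases le_or_gt a b with l | l
  · simp only [D_id l, dl]
    omega
  · simp [D, H, Ico_eq_empty_of_le l.le]

lemma iter (L : ℕ) : ∃ w, Val w ∧ ∀ t ≤ 80 ^ L + 1, (0 ≤ w t ∧ w t + 6 ≤ 8 * 2 ^ L) ∧
    ∀ g, |D w 0 t g| + 6 ≤ 8 * 20 ^ L := by
  induction L with
  | zero =>
    refine ⟨_, val_id, fun t ht => ⟨by omega, fun g => ?_⟩⟩
    have : |D (fun t => t) 0 t g| ≤ 2 := by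
      simp only [D_id (Nat.zero_le t), dl, abs_le]
      omega
    omega
  | succ L ih =>
    obtain ⟨w, h, h1⟩ := ih
    refine ⟨_, h.sub, fun t ht => ?_⟩
    obtain ⟨τ, u, hu, rfl⟩ : ∃ τ u, u < 80 ∧ t = 80 * τ + u := ⟨t / 80, t % 80, by omega, by omega⟩
    obtain ⟨h2, h3⟩ := h1 (τ + 1) (by omega)
    refine ⟨?_, fun g => ?_⟩
    · have : 0 ≤ lf (bl w τ) u ∧ lf (bl w τ) u ≤ 6 := lf_bd _ _ u
      rw [sub_eq τ hu]
      omega
    have k : ∀ i, -(8 * 20 ^ L - 5) ≤ D w 1 (τ + 1) i ∧ D w 1 (τ + 1) i ≤ 8 * 20 ^ L - 5 :=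
      fun i => by
        have := abs_le.1 (le_sub_iff_add_le.2 (h3 i))
        rw [D_add (b := 0 + 1) (by omega) (by omega), D_one, dl, dl, zero_add] at this
        omega
    have := H_bd (w := sub w) (80 * τ) (80 * τ + u) g
    have := H_bd (w := sub w) (80 * τ) (80 * τ + u) (g - 1)
    have e := D_mid (w := w) (Nat.zero_le τ) g
    rw [mul_zero, zero_add] at e
    rw [D_add (b := 80 * τ) (by omega) (by omega), e, D, ← le_sub_iff_add_le, abs_le]
    obtain ⟨i, rfl | rfl⟩ := par g <;> simp only [cv_par] <;> have := k i <;> have := k (i - 1) <;>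
      have := k (i - 2) <;> omega

lemma ch_pow (L : ℕ) : Ch (2 * (64 * 40 ^ L)) (64 * 40 ^ L) (80 ^ L) := by
  obtain ⟨w, h, h1⟩ := iter L
  have := ch_of_val h (m := 80 ^ L) (X := 8 * 2 ^ L) (A := 8 * 20 ^ L)
    (fun t ht => by have := (h1 t (by omega)).1; push_cast; omega)
    fun t ht g => by have := (h1 t (by omega)).2 g; push_cast; omega
  have e : 8 * 2 ^ L * (8 * 20 ^ L) = 64 * 40 ^ L := by
    rw [mul_mul_mul_comm, ← mul_pow]
    rfl
  rwa [mul_left_comm, e] at this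

lemma ch_all {n k : ℕ} (hk : 1 ≤ k) (hn : 2 * k ≤ n) :
    ∃ m L, Ch n k m ∧ k ≤ 40 ^ (L + 3) ∧ n * 2 ^ L ≤ 512 * m := by
  rcases lt_or_ge k 64 with l | l
  · have : Ch 1 1 0 := ⟨fun _ => {0}, by simp, by omega, by omega⟩
    exact ⟨_, 0, this.cat (q := n - k + 1) le_rfl hk (by omega) (by omega), by omega, by omega⟩
  obtain ⟨L, h1, h2⟩ : ∃ L, 40 ^ L ≤ k / 64 ∧ k / 64 < 40 ^ (L + 1) :=
    ⟨_, Nat.pow_log_le_self 40 (by omega), Nat.lt_pow_succ_log_self (by omega) _⟩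
  have h0 : 0 < 40 ^ L := by positivity
  obtain ⟨q, q1, q2⟩ : ∃ q, q * (2 * (64 * 40 ^ L)) ≤ n - k + 64 * 40 ^ L ∧
      n - k + 64 * 40 ^ L < (q + 1) * (2 * (64 * 40 ^ L)) :=
    ⟨_, Nat.div_mul_le_self _ _, (Nat.div_lt_iff_lt_mul (by omega)).1 (Nat.lt_succ_self _)⟩
  have q3 : 1 ≤ q := Nat.pos_of_ne_zero (by rintro rfl; omega)
  refine ⟨_, L, (ch_pow L).cat (q := q) (by omega) (by omega) q3 (by omega),
    by simp only [pow_add] at h2 ⊢; omega, ?_⟩
  have : n ≤ 512 * (q * 40 ^ L) := by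
    nlinarith [Nat.mul_le_mul_right (40 ^ L) q3, Nat.sub_add_cancel (show k ≤ n by omega)]
  calc _ ≤ 512 * (q * 40 ^ L) * 2 ^ L := Nat.mul_le_mul_right _ this
    _ = 512 * (q * 80 ^ L) := by rw [mul_assoc, mul_assoc, ← mul_pow]; rfl
    _ ≤ _ := by rw [Nat.mul_succ]; omega

end Pool.Agent.P.MP_77a832_co.Ps
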