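import Pool.Agent.P.MP_77a832_co.Ps.Ext

/-! Words all of whose factors have unimodal histograms. -/

namespace Pool.Agent.P.MP_77a832_co.Ps

open Finset

/-- The indicator of equality. -/
def dl (c g : ℤ) : ℤ := if c = g then 1 else 0

/-- The histogram of a factor. -/
def H (w : ℕ → ℤ) (a b : ℕ) (g : ℤ) : ℤ := ∑ u ∈ Ico a b, dl (w u) g

/-- The difference of the histogram. -/
def D (w : ℕ → ℤ) (a b : ℕ) (g : ℤ) : ℤ := H w a b g - H w a b (g - 1)

/-- No positive value after a negative one. -/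
def Pt (e : ℤ → ℤ) : Prop := ∀ x y, x < y → e x < 0 → e y ≤ 0

/-- Valid words. -/
structure Val (w : ℕ → ℤ) : Prop where
  st : ∀ t, w (t + 1) = w t + 1 ∨ w (t + 1) = w t - 1
  pt : ∀ a b, Pt (D w a b)

variable {w : ℕ → ℤ} {a b c : ℕ} {g : ℤ}

lemma H_add (h : a ≤ b) (h' : b ≤ c) (g : ℤ) : H w a c g = H w a b g + H w b c g :=
  (sum_Ico_consecutive _ h h').symm

lemma H_one (a : ℕ) (g : ℤ) : H w a (a + 1) g = dl (w a) g := by simp [H]

lemma H_self (a : ℕ) (g : ℤ) : H w a a g = 0 := by simp [H]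

lemma H_bd (a b : ℕ) (g : ℤ) : 0 ≤ H w a b g ∧ H w a b g ≤ (b - a : ℕ) :=
  ⟨sum_nonneg fun _ _ => by unfold dl; split_ifs <;> omega,
    (sum_le_card_nsmul _ _ 1 fun _ _ => by unfold dl; split_ifs <;> omega).trans (by simp)⟩

lemma H_zero (h : ∀ u, a ≤ u → u < b → w u ≠ g) : H w a b g = 0 :=
  sum_eq_zero fun u hu => if_neg (h u (mem_Ico.1 hu).1 (mem_Ico.1 hu).2)

lemma D_add (h : a ≤ b) (h' : b ≤ c) (g : ℤ) : D w a c g = D w a b g + D w b c g := by
  simp only [D, H_add h h']
  ring

lemma D_one (a : ℕ) (g : ℤ) : D w a (a + 1) g = dl (w a) g - dl (w a) (g - 1) := by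
  rw [D, H_one, H_one]

/-- A valid word gives a chain. -/
lemma ch_of_val (h : Val w) {m X A : ℕ} (h1 : ∀ t ≤ m, 0 ≤ w t ∧ w t + 1 < X)
    (h2 : ∀ t ≤ m, ∀ g, |D w 0 t g| ≤ A) : Ch (X * (2 * A)) (X * A) m := by
  have e : ∀ t ≤ m, ∀ g : ℕ, ((A - D w 0 t g).toNat : ℤ) = A - D w 0 t g ∧
      (A - D w 0 t g).toNat ≤ 2 * A := fun t ht g => by
    have := abs_le.1 (h2 t ht g)
    omega
  have s : ∀ g g' : ℕ, g < g' → g * (2 * A) + 2 * A ≤ g' * (2 * A) := fun g g' l => by
    rw [← Nat.succ_mul]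
    exact Nat.mul_le_mul_right _ l
  refine ⟨fun t => (range X).biUnion fun g => Ico (g * (2 * A)) (g * (2 * A) + (A - D w 0 t g).toNat),
    fun t ht => ⟨fun z => ?_, ?_⟩, fun i j hij hj z => ?_, fun t ht e' => ?_⟩
  · simp only [mem_biUnion, mem_range, mem_Ico]
    rintro ⟨g, g1, -, g2⟩
    have := s g X g1
    have := e t ht g
    omega
  · rw [card_biUnion]
    · zify
      simp only [Nat.card_Ico, Nat.add_sub_cancel_left, (e t ht _).1, sum_sub_distrib]
      have := sum_range_sub (fun g : ℕ => H w 0 t (g - 1)) X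
      simp only [Nat.cast_succ, add_sub_cancel_right] at this
      simp only [D]
      rw [this, H_zero, H_zero]
      · simp
      all_goals
        intro u _ hu
        have := h1 u (by omega)
        omega
    · intro g _ g' _ hg
      refine disjoint_left.2 fun z => ?_
      simp only [mem_Ico]
      have := e t ht g
      have := e t ht g'
      have := s g g'
      have := s g' g
      omega
  · simp only [mem_biUnion, mem_range, mem_Ico, not_exists, not_and]
    rintro ⟨g, g1, g2, g3⟩ g4 z' ⟨g', g1', g2', g3'⟩ g4'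
    have := g4 g g1 g2
    have := g4' g' g1' g2'
    have := e i (by omega) g
    have := e j hj g
    have := e i (by omega) g'
    have := e j hj g'
    have := D_add (w := w) (Nat.zero_le i) hij.le g
    have := D_add (w := w) (Nat.zero_le i) hij.le g'
    have := h.pt i j g' g
    have := s g g'
    rcases lt_trichotomy g g' with l | rfl | l <;> omega
  · obtain ⟨g, hg⟩ := Int.eq_ofNat_of_zero_le (h1 t ht.le).1
    have := h1 t ht.le
    have := e t ht.le g
    have := e (t + 1) ht g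
    have h3 := D_add (w := w) (Nat.zero_le t) (Nat.le_add_right t 1) g
    rw [D_one, hg, dl, dl, if_pos rfl, if_neg (by omega)] at h3
    obtain ⟨g', -, h4⟩ := mem_biUnion.1 ((Finset.ext_iff.1 e'
      (g * (2 * A) + (A - D w 0 (t + 1) g).toNat)).1
        (mem_biUnion.2 ⟨g, mem_range.2 (by omega), mem_Ico.2 ⟨by omega, by omega⟩⟩))
    rw [mem_Ico] at h4
    have := e (t + 1) ht g'
    have := s g g'
    have := s g' g
    rcases lt_trichotomy g g' with l | rfl | l <;> omega

/-- Chains are put side by side. -/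
lemma Ch.cat {n0 k0 m n k q : ℕ} (h : Ch n0 k0 m) (h0 : 1 ≤ k0) (hk : k0 ≤ k) (hq : 1 ≤ q)
    (hn : q * n0 + (k - k0) ≤ n) : Ch n k (q * (m + 1) - 1) := by
  obtain ⟨S, h1, h2, h3⟩ := h
  have r : ∀ i, i % (m + 1) ≤ m := fun i => Nat.le_of_lt_succ (Nat.mod_lt _ m.succ_pos)
  have s : ∀ g g' : ℕ, g < g' → g * n0 + n0 ≤ g' * n0 := fun g g' l => by
    rw [← Nat.succ_mul]
    exact Nat.mul_le_mul_right _ l
  have l : ∀ i, ∀ z ∈ S (i % (m + 1)), z < n0 := fun i z hz => mem_range.1 ((h1 _ (r i)).1 hz)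
  have d : ∀ i ≤ q * (m + 1) - 1, i / (m + 1) * n0 + n0 ≤ q * n0 := fun i hi =>
    s _ _ (Nat.div_lt_of_lt_mul (by have := Nat.mul_pos hq (Nat.add_one_pos m); rw [mul_comm]; omega))
  refine ⟨fun i => (S (i % (m + 1))).image (i / (m + 1) * n0 + ·) ∪ Ico (q * n0) (q * n0 + (k - k0)),
    fun i hi => ⟨fun z => ?_, ?_⟩, fun i j hij hj z => ?_, fun i hi e => ?_⟩
  · simp only [mem_union, mem_image, mem_range, mem_Ico]
    have := d i hi
    rintro (⟨z, hz, rfl⟩ | e)
    · have := l i z hz
      omega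
    · omega
  · rw [card_union_of_disjoint, card_image_of_injective _ (add_right_injective _), (h1 _ (r i)).2,
      Nat.card_Ico]
    · omega
    refine disjoint_left.2 fun z => ?_
    simp only [mem_image, mem_Ico]
    rintro ⟨z, hz, rfl⟩
    have := l i z hz
    have := d i hi
    omega
  · simp only [mem_union, mem_image, not_or, not_exists, not_and]
    rintro (⟨z, hz, rfl⟩ | e) e1 z' (⟨z', hz', rfl⟩ | e') e2
    · rcases (Nat.div_le_div_right (c := m + 1) hij.le).lt_or_eq with e | e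
      · have := s _ _ e
        have := l i z hz
        omega
      · rw [e] at e1 e2 ⊢
        refine Nat.add_lt_add_left (h2 _ _ ?_ (r j) z hz (fun a => e1.1 z a rfl) z' hz'
          fun a => e2.1 z' a rfl) _
        have := Nat.div_add_mod i (m + 1)
        have := Nat.div_add_mod j (m + 1)
        rw [e] at *
        omega
    exacts [absurd e' e2.2, absurd e e1.2, absurd e e1.2]
  · have key : ∀ z ∈ S (i % (m + 1)), ∃ z' ∈ S ((i + 1) % (m + 1)),
        (i + 1) / (m + 1) * n0 + z' = i / (m + 1) * n0 + z := fun z hz => by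
      have := (Finset.ext_iff.1 e (i / (m + 1) * n0 + z)).1 (mem_union_left _ (mem_image_of_mem _ hz))
      simp only [mem_union, mem_image, mem_Ico] at this
      refine this.resolve_right ?_
      have := l i z hz
      have := d i hi.le
      omega
    rcases (r i).lt_or_eq with e1 | e1
    · have e2 : (i + 1) % (m + 1) = i % (m + 1) + 1 := by
        rw [← Nat.mod_add_mod, Nat.mod_eq_of_lt (by omega)]
      have e3 : (i + 1) / (m + 1) = i / (m + 1) := Nat.succ_div_of_mod_ne_zero (by omega)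
      refine h3 _ e1 (eq_of_subset_of_card_le (fun z hz => ?_)
        (by rw [(h1 _ e1.le).2, (h1 _ e1).2]))
      obtain ⟨z', a, b⟩ := key z hz
      rwa [e2, show z' = z by rw [e3] at b; omega] at a
    · obtain ⟨z, hz⟩ := card_pos.1 ((h1 _ (r i)).2 ▸ h0 : 0 < #(S (i % (m + 1))))
      obtain ⟨z', -, b⟩ := key z hz
      rw [Nat.succ_div_of_mod_eq_zero (by rw [← Nat.mod_add_mod, e1, Nat.mod_self]),
        Nat.succ_mul] at b
      have := l i z hz
      omega

end Pool.Agent.P.MP_77a832_co.Ps
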